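import Pool.Agent.Q161.OS.Stm
import Pool.Agent.Q91.EL.Small

set_option autoImplicit false
set_option linter.unusedSectionVars false

/-! Job CH2 of project OS: changing the representative. -/

open Polynomial NumberField IsDedekindDomain Pool.Agent.Q51.EL Pool.Agent.Q161.OS

noncomputable section

namespace Pool.Agent.Q237.OS

open Pool.Agent.Q91.EL

theorem ch2 : S_CH2 := by
  intro f L _ _ θ hS hodd D d d' η c hc hη hd F _ _ hcov
  obtain ⟨x, w, v, g, hxw, hdvd, hw⟩ := hcov
  have h1 : f.map (Int.castRingHom ℚ) ∣ d' - C c * d * η ^ 2 := by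
    refine setup_dvd hS ?_
    rw [map_sub, map_mul, map_mul, map_pow, aeval_C, hd]
    simp
  have h2 : IsCoprime (f.map (Int.castRingHom ℚ)) η := by
    rw [hS.irr.coprime_iff_not_dvd]
    rintro ⟨q, hq⟩
    apply hη
    have h0 : aeval θ (f.map (Int.castRingHom ℚ)) = 0 := by
      have := hS.root
      rw [← Polynomial.aeval_map_algebraMap ℚ θ f] at this
      exact this
    rw [hq, map_mul, h0, zero_mul]
  obtain ⟨u, ζ, huζ⟩ := h2
  obtain ⟨q, hq⟩ := h1
  obtain ⟨s, hs⟩ := hdvd
  have hmap : (f.map (Int.castRingHom ℚ)).map (Rat.castHom F) = f.map (Int.castRingHom F) := by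
    rw [Polynomial.map_map]
    congr 1
    exact RingHom.ext_int _ _
  have hq' : d'.map (Rat.castHom F) = C (c : F) * d.map (Rat.castHom F) *
      η.map (Rat.castHom F) ^ 2 + f.map (Int.castRingHom F) * q.map (Rat.castHom F) := by
    have : d' = C c * d * η ^ 2 + f.map (Int.castRingHom ℚ) * q := by rw [← hq]; ring
    rw [this, Polynomial.map_add, Polynomial.map_mul, Polynomial.map_mul, Polynomial.map_pow,
      Polynomial.map_mul, hmap, Polynomial.map_C]
    rfl
  have hu' : u.map (Rat.castHom F) * f.map (Int.castRingHom F) +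
      ζ.map (Rat.castHom F) * η.map (Rat.castHom F) = 1 := by
    have := congrArg (Polynomial.map (Rat.castHom F)) huζ
    rwa [Polynomial.map_add, Polynomial.map_mul, Polynomial.map_mul, hmap,
      Polynomial.map_one] at this
  have hc' : (c : F) ≠ 0 := by exact_mod_cast hc
  obtain ⟨k, hk⟩ := hodd
  set N : ℚ := c ^ k * Algebra.norm ℚ (aeval θ η) with hN
  have hN0 : N ≠ 0 := mul_ne_zero (pow_ne_zero _ hc) (Algebra.norm_ne_zero_iff.2 hη)
  have hN0' : (N : F) ≠ 0 := by exact_mod_cast hN0
  have hnorm : Algebra.norm ℚ (aeval θ d') = c * N ^ 2 * Algebra.norm ℚ (aeval θ d) := by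
    rw [hd, map_mul, map_mul, map_pow]
    have e1 : (c : L) = algebraMap ℚ L c := by simp
    rw [e1, Algebra.norm_algebraMap, hS.deg, hk, hN]
    ring
  refine ⟨c * x, c * w, v / N, ζ.map (Rat.castHom F) * g, ?_, ?_, ?_⟩
  · rcases hxw with h | h
    · exact Or.inl (mul_ne_zero hc' h)
    · exact Or.inr (mul_ne_zero hc' h)
  · set fF := f.map (Int.castRingHom F)
    set dF := d.map (Rat.castHom F)
    set ηF := η.map (Rat.castHom F)
    set ζF := ζ.map (Rat.castHom F)
    set uF := u.map (Rat.castHom F)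
    set qF := q.map (Rat.castHom F)
    have e1 : ζF * ηF = 1 - uF * fF := by rw [← hu']; ring
    have e2 : dF * g ^ 2 = C x - C w * X - fF * s := by rw [← hs]; ring
    rw [hq', C_mul, C_mul]
    refine ⟨C (c : F) * s + C (c : F) * (dF * g ^ 2) * uF * (2 - uF * fF) - qF * (ζF * g) ^ 2, ?_⟩
    have e3 : (C (c : F) * dF * ηF ^ 2 + fF * qF) * (ζF * g) ^ 2 =
        C (c : F) * (dF * g ^ 2) * (ζF * ηF) ^ 2 + fF * qF * (ζF * g) ^ 2 := by ring
    rw [e3, e1, e2]
    ring
  · rw [hnorm, hw]
    push_cast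
    field_simp

end Pool.Agent.Q237.OS
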