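import Pool.Agent.Q161.OS.Stm

set_option autoImplicit false
set_option linter.unusedSectionVars false

/-! Job FINO of project OS: the theorem on all quadratic twists. -/

open Polynomial NumberField IsDedekindDomain Pool.Agent.Q51.EL Pool.Agent.Q161.OS

noncomputable section

namespace Pool.Agent.Q237.OS

open Pool.Agent.Q161.OD (P1 P2 Dvg)

/-- the primes have divergent sum of reciprocals -/
theorem dvg_all' {P : Set ℕ} (hP : ∀ l, l ∈ P ↔ l.Prime) : Dvg P := by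
  classical
  refine ⟨fun l hl => (hP l).1 hl, fun R => ?_⟩
  by_contra hc
  push Not at hc
  apply Nat.Primes.not_summable_one_div
  refine summable_of_sum_le (c := R) (fun l => by positivity) ?_
  intro s
  obtain ⟨n, hn⟩ := (s.image (fun l : Nat.Primes => (l : ℕ))).exists_nat_subset_range
  refine le_trans ?_ (hc n).le
  have h1 : ∑ i ∈ s, (1 : ℝ) / (i : ℕ) =
      ∑ l ∈ s.image (fun l : Nat.Primes => (l : ℕ)), (1 : ℝ) / l := by
    rw [Finset.sum_image]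
    intro a _ b _ h
    exact Subtype.ext h
  rw [h1]
  refine Finset.sum_le_sum_of_subset_of_nonneg ?_ fun l _ _ => by positivity
  intro l hl
  have h2 := Finset.mem_range.1 (hn hl)
  obtain ⟨a, ha, rfl⟩ := Finset.mem_image.1 hl
  rw [Finset.mem_filter, hP]
  refine ⟨?_, a.2⟩
  unfold pr
  rw [Finset.mem_filter, Finset.mem_Icc, Nat.floor_natCast]
  exact ⟨⟨a.2.one_lt.le, h2.le⟩, a.2⟩

theorem dvg_all : Dvg {l : ℕ | l.Prime} := dvg_all' fun _ => Iff.rfl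

variable {L : Type} [Field L] [NumberField L] {f : ℤ[X]} {θ : L}

lemma exists_t2 (hs : Setup f L θ) : ∃ t : 𝓞 L, (t : L) = f.leadingCoeff * θ := by
  have h1 : IsIntegral ℤ (f.leadingCoeff • θ) := by
    refine isIntegral_leadingCoeff_smul f θ ?_
    exact hs.root
  refine ⟨⟨f.leadingCoeff • θ, h1⟩, ?_⟩
  change f.leadingCoeff • θ = _
  rw [zsmul_eq_mul]

lemma P1_mono {l : ℕ} {T T' : Set (𝓞 L × ℤ)} (h : T' ⊆ T) (hT : P1 l T) : P1 l T' :=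
  fun p hp => hT p (h hp)

lemma P2_mono {l : ℕ} {T T' : Set (𝓞 L × ℤ)} (h : T' ⊆ T) (hT : P2 l T) : P2 l T' :=
  ⟨fun p hp q hq => hT.1 p (h hp) q (h hq), fun p hp q hq => hT.2 p (h hp) q (h hq)⟩

lemma gd_mono {B B' : ℕ} (h : B ∣ B') {t : 𝓞 L} {κ D : ℤ} {α : 𝓞 L} {m : ℤ}
    (hG : Gd B t κ D α m) : Gd B' t κ D α m :=
  ⟨fun l hl hlB => hG.even l hl (fun h2 => hlB (h2.trans h)),
    fun l hl hlB => hG.odd l hl (fun h2 => hlB (h2.trans h))⟩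

lemma nm_one {v : HeightOneSpectrum (𝓞 L)} {x : 𝓞 L} (h : v.valuation L (x : L) = 1) :
    x ∉ v.asIdeal := (HeightOneSpectrum.valuation_eq_one_iff_notMem v).1 h

lemma mem_exp {v : HeightOneSpectrum (𝓞 L)} {x : 𝓞 L}
    (h : v.valuation L (x : L) = WithZero.exp (-1 : ℤ)) : x ∈ v.asIdeal := by
  rw [← HeightOneSpectrum.valuation_lt_one_iff_mem (K := L)]
  show v.valuation L (x : L) < 1
  rw [h]
  exact WithZero.exp_lt_exp.2 (by norm_num)

theorem fino : S_DESC2 → S_TY2O → S_THIN → S_CNTG → S_RAM → S_FINO := by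
  intro hDESC hTY hTHIN hCNT hRAM f hirr hodd h5 L _ _ θ hs ε hε
  classical
  obtain ⟨t, ht⟩ := exists_t2 hs
  obtain ⟨B, C, hB, hC, hdesc⟩ := hDESC f L θ hs hodd (by omega) t ht
  obtain ⟨B1, hB1, hram⟩ := (hRAM L).1
  set B' := B * B1 with hB'
  have hB'0 : B' ≠ 0 := mul_ne_zero hB hB1
  have hBB' : B ∣ B' := Dvd.intro _ rfl
  have hram' : ∀ l : ℕ, l.Prime → ¬ l ∣ B' → Squarefree (Ideal.span {(l : 𝓞 L)}) := by
    intro l hl hlB
    exact hram l hl (fun h => hlB (h.trans (Dvd.intro_left _ rfl)))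
  set K : Finset ℤ := (Finset.Icc (-(B : ℤ)) B).filter (fun κ => κ ∣ (B : ℤ)) with hK
  have hKm : ∀ κ : ℤ, κ ∈ K ↔ κ ∣ (B : ℤ) := by
    intro κ
    rw [hK, Finset.mem_filter, Finset.mem_Icc]
    refine ⟨fun h => h.2, fun h => ⟨?_, h⟩⟩
    have h1 : |κ| ≤ |(B : ℤ)| := by
      have hB0 : (0 : ℤ) < |(B : ℤ)| := by
        rw [abs_pos]; exact_mod_cast hB
      exact Int.le_of_dvd hB0 ((abs_dvd_abs κ (B : ℤ)).2 h)
    rw [Nat.abs_cast] at h1
    exact abs_le.1 h1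
  let e := K.equivFin.symm
  set T : Fin K.card → Set (𝓞 L × ℤ) := fun k =>
    {p | ¬ Tr L (p.1 : L) ∧ ∃ D : ℤ, Gd B' t (e k : ℤ) D p.1 p.2} with hT
  have hTsub : ∀ k, T k ⊆ {p : 𝓞 L × ℤ | ∃ D : ℤ, Gd B' t (e k : ℤ) D p.1 p.2} :=
    fun k p hp => hp.2
  have hke : ∀ k, ((e k : K) : ℤ) ∣ (B' : ℤ) := by
    intro k
    have h1 := (hKm (e k)).1 (e k).2
    refine h1.trans ?_
    exact_mod_cast hBB'
  have hpos : ∀ k, ∀ l : ℕ, l.Prime → ¬ l ∣ B' → P1 l (T k) ∧ P2 l (T k) := by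
    intro k l hl hlB
    obtain ⟨h1, h2⟩ := hTY L B' t (e k) hB'0 (hke k) l hl hlB
    exact ⟨P1_mono (hTsub k) h1, P2_mono (hTsub k) h2⟩
  have hthin : ∀ k, ∀ α : 𝓞 L, ∃ P : Set ℕ, Dvg P ∧
      ∀ m : ℤ, (α, m) ∈ T k → ∀ l ∈ P, ¬ (l : ℤ) ∣ m := by
    intro k α
    by_cases hα : Tr L (α : L)
    · exact ⟨_, dvg_all, fun m hm => absurd hα hm.1⟩
    · obtain ⟨P, hP, h⟩ := hTHIN L (by rw [hs.deg]; exact hodd) B' t (e k) hB'0 hram' α hα
      exact ⟨P, hP, fun m hm => h m hm.2⟩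
  refine hCNT L (by rw [hs.deg]; exact h5) (fun D => ∃ d : ℚ[X], aeval θ d ≠ 0 ∧
      ¬ Tr L (aeval θ d) ∧ ∀ (p : ℕ) [Fact p.Prime],
        Cov f d (((f.leadingCoeff * D : ℤ) : ℚ) * Algebra.norm ℚ (aeval θ d)) ℚ_[p])
    B' C K.card T hB'0 hC hpos hthin ?_ ε hε
  rintro D hD ⟨d, hd0, hdT, hcov⟩
  obtain ⟨α, c, η, κ, m, hα, hc, hη, hαe, hκ, hG, hm1, hm2, hσ⟩ := hdesc D d hD hd0 hcov
  have hκK : κ ∈ K := (hKm κ).2 hκ
  refine ⟨e.symm ⟨κ, hκK⟩, (α, m), ⟨?_, ?_⟩, ?_, hm1, hm2, hσ⟩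
  · rintro ⟨c', η', h⟩
    apply hdT
    refine ⟨c' / c, η' / η, ?_⟩
    have hcL : (c : L) ≠ 0 := by exact_mod_cast hc
    have h2 : (c : L) * aeval θ d * η ^ 2 = (c' : L) * η' ^ 2 := by
      rw [← hαe]; exact h
    push_cast
    field_simp
    linear_combination h2
  · refine ⟨D, ?_⟩
    rw [Equiv.apply_symm_apply]
    exact gd_mono hBB' hG
  · intro l hl hlB
    have hlB2 : ¬ l ∣ B := fun h => hlB (h.trans hBB')
    constructor
    · intro hlD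
      rcases hG.odd l hl hlB2 hlD with ⟨h1, -⟩ | ⟨-, v0, h2, -, h4, -⟩
      · exact Or.inl h1
      · exact Or.inr ⟨v0, h2, mem_exp h4⟩
    · intro h
      by_contra hlD
      obtain ⟨h1, h2⟩ := hG.even l hl hlB2 hlD
      rcases h with h | ⟨v, hv, hv2⟩
      · exact h1 h
      · exact nm_one (h2 v hv) hv2

end Pool.Agent.Q237.OS
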