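import Pool.Agent.Q161.OS.Stm
import Pool.Agent.Q239.EL.ROOT

set_option autoImplicit false
set_option linter.unusedSectionVars false

/-! Job LIFT2 of project OS: rational points. -/

open Polynomial NumberField IsDedekindDomain Pool.Agent.Q51.EL Pool.Agent.Q161.OS

noncomputable section

namespace Pool.Agent.Q237.OS

open Pool.Agent.Q239.EL

variable {L : Type} [Field L] [NumberField L] {f : ℤ[X]} {θ : L}

lemma norm_theta_rat (hs : Setup f L θ) (r : ℚ) :
    (f.leadingCoeff : ℚ) * Algebra.norm ℚ ((r : L) - θ) = aeval r f := by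
  classical
  have hint : IsIntegral ℚ θ := Algebra.IsIntegral.isIntegral θ
  have htop : IntermediateField.adjoin ℚ {θ} = ⊤ :=
    (Field.primitive_element_iff_minpoly_natDegree_eq ℚ θ).mpr (theta_deg hs)
  have htop' : Algebra.adjoin ℚ {θ} = ⊤ := by
    rw [← IntermediateField.adjoin_simple_toSubalgebra_of_isAlgebraic hint.isAlgebraic, htop]
    rfl
  let B := PowerBasis.ofAdjoinEqTop hint htop'
  have hB : B.gen = θ := PowerBasis.ofAdjoinEqTop_gen hint htop'
  have h1 : Algebra.norm ℚ (algebraMap ℚ L r - B.gen) = (minpoly ℚ B.gen).eval (r : ℚ) := by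
    rw [Algebra.norm_eq_matrix_det B.basis, map_sub, ← charpoly_leftMulMatrix B,
      Matrix.eval_charpoly]
    congr 2
    rw [AlgHom.commutes]
    rfl
  have e0 : algebraMap ℚ L r = (r : L) := by simp
  rw [hB, e0] at h1
  rw [h1]
  have h2 := congrArg (eval (r : ℚ)) (theta_minpoly hs)
  rw [eval_mul, eval_C] at h2
  rw [← h2, ← aeval_map_algebraMap ℚ r f]
  rfl

theorem lift2 : S_LIFT2 := by
  intro f L _ _ θ hs hodd hdeg D x y hD hxy
  have hf0 : aeval x f ≠ 0 := by
    intro h
    have h1 : (f.map (Int.castRingHom ℚ)).IsRoot x := by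
      rw [IsRoot.def, eval_map]
      exact h
    have h2 := degree_eq_one_of_irreducible_of_root hs.irr h1
    have h3 : (f.map (Int.castRingHom ℚ)).natDegree = 1 := natDegree_eq_of_degree_eq_some h2
    rw [natDegree_map_eq_of_injective Int.cast_injective] at h3
    omega
  have hDQ : (D : ℚ) ≠ 0 := by exact_mod_cast hD
  have hy : y ≠ 0 := by
    rintro rfl
    apply hf0
    rw [← hxy]
    ring
  have ha : (f.leadingCoeff : ℚ) ≠ 0 := by exact_mod_cast lead_ne hs
  have he : aeval θ (C x - X : ℚ[X]) = (x : L) - θ := by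
    simp
  have hn := norm_theta_rat hs x
  rw [he]
  have hκ : ((f.leadingCoeff * D : ℤ) : ℚ) * Algebra.norm ℚ ((x : L) - θ) = (D * y) ^ 2 := by
    push_cast
    rw [mul_right_comm, hn, ← hxy]
    ring
  refine ⟨?_, ?_, ?_⟩
  · intro F _ _
    rw [hκ]
    refine ⟨(x : F), 1, 1 / ((D : F) * (y : F)), 1, Or.inr one_ne_zero, ?_, ?_⟩
    · have : C (x : F) - C 1 * X - (C x - X : ℚ[X]).map (Rat.castHom F) * 1 ^ 2 = 0 := by
        simp [Polynomial.map_sub]
      rw [this]
      exact dvd_zero _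
    · have h1 : (D : F) ≠ 0 := by exact_mod_cast hD
      have h2 : (y : F) ≠ 0 := by exact_mod_cast hy
      push_cast
      field_simp
  · intro h
    rw [h, Algebra.norm_zero, mul_zero] at hn
    exact hf0 hn.symm
  · rintro ⟨c, η, hη⟩
    obtain ⟨k, hk⟩ := hodd
    rw [hη] at hn ⊢
    have e1 : (c : L) = algebraMap ℚ L c := by simp
    have hn2 : (f.leadingCoeff : ℚ) * (c ^ (2 * k + 1) * Algebra.norm ℚ η ^ 2) = D * y ^ 2 := by
      rw [hxy, ← hn, e1, map_mul, map_pow, Algebra.norm_algebraMap, hs.deg, hk]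
    set q : ℚ := f.leadingCoeff * c ^ (k + 1) * Algebra.norm ℚ η / y with hq
    have hq2 : (f.leadingCoeff : ℚ) * D * c = q ^ 2 := by
      rw [hq]
      field_simp
      calc (D : ℚ) * c * y ^ 2 = c * (D * y ^ 2) := by ring
        _ = _ := by rw [← hn2]; ring
    refine ⟨(q : L) * η, ?_⟩
    have hq3 : (((f.leadingCoeff * D : ℤ) : L)) * (c : L) = (q : L) ^ 2 := by
      have := congrArg (fun z : ℚ => (z : L)) hq2
      push_cast at this ⊢
      exact this
    rw [← mul_assoc, hq3]
    ring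

end Pool.Agent.Q237.OS
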