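import Pool.Agent.Q161.OS.Stm
import Pool.Agent.Q239.EL.NV

set_option autoImplicit false
set_option linter.unusedSectionVars false

/-! Job NV2 of project OS: norm and valuations. -/

open Polynomial NumberField IsDedekindDomain Pool.Agent.Q51.EL Pool.Agent.Q161.OS

noncomputable section

namespace Pool.Agent.Q237.OS

open Pool.Agent.Q239.EL

theorem nv2 : S_NV2 := by
  classical
  intro L _ _ l hl hs x hx
  have : Fact l.Prime := ⟨hl⟩
  obtain ⟨z, y, hz, hy, hzy, hev⟩ := norm_val (l := l) hx
  have hform := ph_formula (l := l) (Ideal.span {z}) (span_ne hz)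
  have hsum := sum_ph (L := L) (l := l) hs
  set V := (ab_finite (L := L) hl.ne_zero).toFinset with hV
  have hVm : ∀ v, v ∈ V ↔ Abv v l := fun v => (ab_finite hl.ne_zero).mem_toFinset
  have hpar : ∀ v e, Par v x e → Even ((mu v (Ideal.span {z}) : ℤ) + e) := by
    intro v e h
    have h1 := par_mul_sq hy h
    rw [← hzy] at h1
    exact par_int hz h1
  constructor
  · intro e he
    have h1 : Even ((ph l (Ideal.span {z}) : ℤ) + e * Module.finrank ℚ L) := by
      rw [hform, ← hsum]
      push_cast
      rw [Finset.mul_sum, ← Finset.sum_add_distrib]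
      apply Finset.even_sum
      intro v hv
      rw [← add_mul]
      exact (hpar v e (he v ((hVm v).mp hv))).mul_right _
    obtain ⟨a, ha⟩ := h1
    obtain ⟨b, hb⟩ := hev
    exact ⟨a + b, by linarith⟩
  · intro e0 e v0 hv0 hN h0 he
    have hphv0 : ph l v0.asIdeal = 1 := by
      unfold ph
      rw [hN, padicValNat.self hl.one_lt]
    have hmem : v0 ∈ V := (hVm v0).mpr hv0
    have h1 : Even ((ph l (Ideal.span {z}) : ℤ) + e0 - e + e * Module.finrank ℚ L) := by
      rw [hform, ← hsum]
      rw [← Finset.add_sum_erase V _ hmem, ← Finset.add_sum_erase V _ hmem, hphv0]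
      push_cast
      have e1 : ((mu v0 (Ideal.span {z}) : ℤ) * 1 + ∑ x ∈ V.erase v0,
          (mu x (Ideal.span {z}) : ℤ) * (ph l x.asIdeal : ℤ)) + e0 - e +
          e * (1 + ∑ x ∈ V.erase v0, (ph l x.asIdeal : ℤ)) =
          ((mu v0 (Ideal.span {z}) : ℤ) + e0) + ∑ x ∈ V.erase v0,
          ((mu x (Ideal.span {z}) : ℤ) + e) * (ph l x.asIdeal : ℤ) := by
        simp only [add_mul, Finset.sum_add_distrib]
        rw [← Finset.mul_sum]
        ring
      rw [e1]
      refine (hpar v0 e0 h0).add (Finset.even_sum _ ?_)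
      intro v hv
      obtain ⟨hv1, hv2⟩ := Finset.mem_erase.mp hv
      exact (hpar v e (he v ((hVm v).mp hv2) hv1)).mul_right _
    obtain ⟨a, ha⟩ := h1
    obtain ⟨c, hc⟩ := hev
    exact ⟨a + c, by linarith⟩

end Pool.Agent.Q237.OS
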