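import Pool.Agent.Q161.OS.Stm
import Pool.Agent.Q91.EL.Small

set_option autoImplicit false
set_option linter.unusedSectionVars false

/-! Job TY2O of project OS: the pairs of one type satisfy the hypotheses of the sieve. -/

open Polynomial NumberField IsDedekindDomain Pool.Agent.Q51.EL Pool.Agent.Q161.OS

noncomputable section

namespace Pool.Agent.Q237.OS

open Pool.Agent.Q91.EL
open Pool.Agent.Q161.OD (P1 P2)

variable {L : Type} [Field L] [NumberField L]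

lemma nm_of_one {v : HeightOneSpectrum (𝓞 L)} {x : 𝓞 L} (h : v.valuation L (x : L) = 1) :
    x ∉ v.asIdeal := (HeightOneSpectrum.valuation_eq_one_iff_notMem v).1 h

lemma mem_of_exp {v : HeightOneSpectrum (𝓞 L)} {x : 𝓞 L}
    (h : v.valuation L (x : L) = WithZero.exp (-1 : ℤ)) : x ∈ v.asIdeal := by
  rw [← HeightOneSpectrum.valuation_lt_one_iff_mem (K := L)]
  show v.valuation L (x : L) < 1
  rw [h]
  exact WithZero.exp_lt_exp.2 (by norm_num)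

theorem ty2o : S_TY2O := by
  intro L _ _ B t κ hB hκ l hl hlB
  have hkl : ¬ (l : ℤ) ∣ κ := by
    intro h
    apply hlB
    exact_mod_cast h.trans hκ
  refine ⟨?_, ?_, ?_⟩
  · rintro ⟨α, m⟩ ⟨D, hD⟩
    by_cases hlD : (l : ℤ) ∣ D
    · rcases hD.odd l hl hlB hlD with ⟨h1, h2, -⟩ | ⟨h1, v0, h2, h3, h4, h5, -⟩
      · exact Or.inr ⟨h1, fun v hv => nm_of_one (h2 v hv)⟩
      · exact Or.inl ⟨h1, Or.inr ⟨v0, h2, h3, mem_of_exp h4,
          fun v hv hne => nm_of_one (h5 v hv hne)⟩⟩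
    · obtain ⟨h1, h2⟩ := hD.even l hl hlB hlD
      exact Or.inl ⟨h1, Or.inl fun v hv => nm_of_one (h2 v hv)⟩
  · rintro ⟨α, m⟩ ⟨D, hD⟩ ⟨α', m'⟩ ⟨D', hD'⟩ v0 hv0 hm hm' v hv hne
    have key : ∀ (α : 𝓞 L) (m D : ℤ), Gd B t κ D α m → α ∈ v0.asIdeal →
        ∃ r : ℤ, t - (r : 𝓞 L) ∈ v0.asIdeal ∧
        ∀ v : HeightOneSpectrum (𝓞 L), Abv v l → v ≠ v0 →
          ∃ g : 𝓞 L, ((κ * m : ℤ) : 𝓞 L) * α - ((r : 𝓞 L) - t) * g ^ 2 ∈ v.asIdeal := by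
      intro α m D hD hm
      by_cases hlD : (l : ℤ) ∣ D
      · rcases hD.odd l hl hlB hlD with ⟨h1, h2, -⟩ | ⟨h1, v1, h2, h3, h4, h5, r, h6, h7⟩
        · exact absurd hm (nm_of_one (h2 v0 hv0))
        · have hv : v0 = v1 := by
            by_contra hne
            exact nm_of_one (h5 v0 hv0 hne) hm
          subst hv
          exact ⟨r, h6, h7⟩
      · obtain ⟨h1, h2⟩ := hD.even l hl hlB hlD
        exact absurd hm (nm_of_one (h2 v0 hv0))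
    obtain ⟨r, k2, k3⟩ := key α m D hD hm
    obtain ⟨r', k2', k3'⟩ := key α' m' D' hD' hm'
    have hr : (l : ℤ) ∣ r' - r := by
      refine int_mem hl hv0 ?_
      have e : ((r' - r : ℤ) : 𝓞 L) = (t - (r : 𝓞 L)) - (t - (r' : 𝓞 L)) := by
        push_cast; ring
      rw [e]
      exact v0.asIdeal.sub_mem k2 k2'
    obtain ⟨g, hg⟩ := k3 v hv hne
    obtain ⟨g', hg'⟩ := k3' v hv hne
    have hcop : IsCoprime (l : ℤ) κ :=
      (Nat.prime_iff_prime_int.mp hl).coprime_iff_not_dvd.2 hkl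
    obtain ⟨a, b, hab⟩ := hcop
    -- `b * κ = 1 - a * l`
    have hb : (l : ℤ) ∣ 1 - b ^ 2 * κ ^ 2 := by
      have e : 1 - b ^ 2 * κ ^ 2 = a * l * (1 + b * κ) := by
        have : a * (l : ℤ) = 1 - b * κ := by linarith
        rw [this]; ring
      rw [e]
      exact Dvd.intro_left _ (by ring : (a * (1 + b * κ)) * (l : ℤ) = _)
    have hbv := mem_int hv hb
    have hrv := mem_int hv hr
    refine ⟨(b : 𝓞 L) * (((r : 𝓞 L) - t) * g * g'), ?_⟩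
    have e : ((m * m' : ℤ) : 𝓞 L) * α * α' - ((b : 𝓞 L) * (((r : 𝓞 L) - t) * g * g')) ^ 2 =
        ((m * m' : ℤ) : 𝓞 L) * α * α' * ((1 - b ^ 2 * κ ^ 2 : ℤ) : 𝓞 L) +
        (b : 𝓞 L) ^ 2 * (((r : 𝓞 L) - t) * g ^ 2 * g' ^ 2 * ((r' - r : ℤ) : 𝓞 L) +
          ((r : 𝓞 L) - t) * g ^ 2 * (((κ * m' : ℤ) : 𝓞 L) * α' - ((r' : 𝓞 L) - t) * g' ^ 2) +
          ((κ * m' : ℤ) : 𝓞 L) * α' * (((κ * m : ℤ) : 𝓞 L) * α - ((r : 𝓞 L) - t) * g ^ 2)) := by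
      push_cast; ring
    show ((m * m' : ℤ) : 𝓞 L) * α * α' - ((b : 𝓞 L) * (((r : 𝓞 L) - t) * g * g')) ^ 2 ∈ v.asIdeal
    rw [e]
    exact v.asIdeal.add_mem (v.asIdeal.mul_mem_left _ hbv)
      (v.asIdeal.mul_mem_left _ (v.asIdeal.add_mem (v.asIdeal.add_mem (v.asIdeal.mul_mem_left _ hrv)
        (v.asIdeal.mul_mem_left _ hg')) (v.asIdeal.mul_mem_left _ hg)))
  · rintro ⟨α, m⟩ ⟨D, hD⟩ ⟨α', m'⟩ ⟨D', hD'⟩ hlm hlm'
    have key : ∀ (α : 𝓞 L) (m D : ℤ), Gd B t κ D α m → (l : ℤ) ∣ m →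
        ∃ c : ℤ, ¬ (l : ℤ) ∣ c ∧ ∀ v : HeightOneSpectrum (𝓞 L), Abv v l →
        ∃ g : 𝓞 L, (c : 𝓞 L) * α - g ^ 2 ∈ v.asIdeal := by
      intro α m D hD hm
      by_cases hlD : (l : ℤ) ∣ D
      · rcases hD.odd l hl hlB hlD with ⟨h1, h2, h3⟩ | ⟨h1, -⟩
        · exact h3
        · exact absurd hm h1
      · exact absurd hm (hD.even l hl hlB hlD).1
    obtain ⟨c, hc, h1⟩ := key α m D hD hlm
    obtain ⟨c', hc', h1'⟩ := key α' m' D' hD' hlm'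
    refine ⟨c * c', ?_, ?_⟩
    · intro h
      rcases (Nat.prime_iff_prime_int.mp hl).dvd_or_dvd h with h | h
      · exact hc h
      · exact hc' h
    · intro v hv
      obtain ⟨g, hg⟩ := h1 v hv
      obtain ⟨g', hg'⟩ := h1' v hv
      refine ⟨g * g', ?_⟩
      have e : ((c * c' : ℤ) : 𝓞 L) * α * α' - (g * g') ^ 2 =
          (c : 𝓞 L) * α * ((c' : 𝓞 L) * α' - g' ^ 2) +
          g' ^ 2 * ((c : 𝓞 L) * α - g ^ 2) := by
        push_cast; ring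
      show ((c * c' : ℤ) : 𝓞 L) * α * α' - (g * g') ^ 2 ∈ v.asIdeal
      rw [e]
      exact v.asIdeal.add_mem (v.asIdeal.mul_mem_left _ hg') (v.asIdeal.mul_mem_left _ hg)

end Pool.Agent.Q237.OS
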